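import Pool.Agent.H716R3.K2
import Pool.Agent.H716R3.Neg

/-! Renormings of `ℓ_2(I)` arbitrarily close to the Hilbert norm on which the positive semigroup is contractive. -/

open Finset Pool.Agent.Helper604.UMD Filter Topology Pool.Agent.H716R3
open scoped NNReal ENNReal

namespace Pool.Agent.Y754.UL

noncomputable section

section scl

variable {𝕜 : Type} [RCLike 𝕜]

/-- multiplication of the coordinates of the second kind by `δ` -/
def scl (δ : ℝ) (x : I → 𝕜) : I → 𝕜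
  | (K, Sum.inl j) => x (K, Sum.inl j)
  | (K, Sum.inr q) => (δ : 𝕜) * x (K, Sum.inr q)

lemma scl_inl (δ : ℝ) (x : I → 𝕜) (K j : ℕ) : scl δ x (K, Sum.inl j) = x (K, Sum.inl j) := rfl
lemma scl_inr (δ : ℝ) (x : I → 𝕜) (K : ℕ) (q : ℕ × ℕ) : scl δ x (K, Sum.inr q) = (δ : 𝕜) * x (K, Sum.inr q) := rfl

lemma scl_scl (a b : ℝ) (x : I → 𝕜) : scl a (scl b x) = scl (a * b) x := by
  funext i
  obtain ⟨K, i⟩ := i
  rcases i with j | q
  · rfl
  · rw [scl_inr, scl_inr, scl_inr]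
    push_cast
    ring

lemma scl_one (x : I → 𝕜) : scl 1 x = x := by
  funext i
  obtain ⟨K, i⟩ := i
  rcases i with j | q
  · rfl
  · rw [scl_inr]
    simp

lemma scl_add (a : ℝ) (x y : I → 𝕜) : scl a (x + y) = scl a x + scl a y := by
  funext i
  obtain ⟨K, i⟩ := i
  rcases i with j | q
  · rfl
  · simp only [Pi.add_apply, scl_inr]
    ring

lemma scl_smul (a : ℝ) (c : 𝕜) (x : I → 𝕜) : scl a (c • x) = c • scl a x := by
  funext i
  obtain ⟨K, i⟩ := i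
  rcases i with j | q
  · rfl
  · simp only [Pi.smul_apply, scl_inr, smul_eq_mul]
    ring

lemma scl_inv {δ : ℝ} (h : 0 < δ) (x : I → 𝕜) : scl δ⁻¹ (scl δ x) = x := by
  rw [scl_scl, inv_mul_cancel₀ h.ne', scl_one]

lemma scl_inv' {δ : ℝ} (h : 0 < δ) (x : I → 𝕜) : scl δ (scl δ⁻¹ x) = x := by
  rw [scl_scl, mul_inv_cancel₀ h.ne', scl_one]

/-- the operators with the coupling multiplied by `δ` -/
def opd (δ : ℝ) (f : ℕ → 𝕜) (x : I → 𝕜) : I → 𝕜
  | (K, Sum.inl j) => f (2 * j) * x (K, Sum.inl j) + (δ : 𝕜) * off f x K j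
  | (K, Sum.inr q) => f (2 * q.1 + 1) * x (K, Sum.inr q)

lemma opd_inl (δ : ℝ) (f : ℕ → 𝕜) (x : I → 𝕜) (K j : ℕ) :
    opd δ f x (K, Sum.inl j) = f (2 * j) * x (K, Sum.inl j) + (δ : 𝕜) * off f x K j := rfl
lemma opd_inr (δ : ℝ) (f : ℕ → 𝕜) (x : I → 𝕜) (K : ℕ) (q : ℕ × ℕ) :
    opd δ f x (K, Sum.inr q) = f (2 * q.1 + 1) * x (K, Sum.inr q) := rfl

lemma off_scl (δ : ℝ) (f : ℕ → 𝕜) (x : I → 𝕜) (K j : ℕ) : off f (scl δ x) K j = (δ : 𝕜) * off f x K j := by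
  unfold off
  rw [mul_sum]
  refine sum_congr rfl fun k _ => ?_
  rw [scl_inr]
  ring

lemma scl_opd (δ : ℝ) (f : ℕ → 𝕜) (x : I → 𝕜) : scl δ (opd δ f x) = op f (scl δ x) := by
  funext i
  obtain ⟨K, i⟩ := i
  rcases i with j | q
  · rw [scl_inl, opd_inl, op_inl, off_scl, scl_inl]
  · rw [scl_inr, opd_inr, op_inr, scl_inr]
    ring

lemma opd_eq {δ : ℝ} (h : 0 < δ) (f : ℕ → 𝕜) (x : I → 𝕜) : opd δ f x = scl δ⁻¹ (op f (scl δ x)) := by
  rw [← scl_opd, scl_inv h]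

lemma opd_mul {δ : ℝ} (h : 0 < δ) (f g : ℕ → 𝕜) (x : I → 𝕜) : opd δ (f * g) x = opd δ f (opd δ g x) := by
  rw [opd_eq h, opd_eq h f, scl_opd, op_mul]

lemma opd_one {δ : ℝ} (h : 0 < δ) (x : I → 𝕜) : opd δ 1 x = x := by
  rw [opd_eq h, op_one, scl_inv h]

lemma opd_add {δ : ℝ} (h : 0 < δ) (f : ℕ → 𝕜) (x y : I → 𝕜) : opd δ f (x + y) = opd δ f x + opd δ f y := by
  rw [opd_eq h, opd_eq h, opd_eq h, scl_add, op_add, scl_add]

lemma opd_smul {δ : ℝ} (h : 0 < δ) (f : ℕ → 𝕜) (c : 𝕜) (x : I → 𝕜) : opd δ f (c • x) = c • opd δ f x := by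
  rw [opd_eq h, opd_eq h, scl_smul, op_smul, scl_smul]

lemma scl_cont (δ : ℝ) : Continuous (scl (𝕜 := 𝕜) δ) := by
  refine continuous_pi fun i => ?_
  obtain ⟨K, i⟩ := i
  rcases i with j | q
  · simp only [scl_inl]
    exact continuous_apply _
  · simp only [scl_inr]
    exact continuous_const.mul (continuous_apply _)

lemma opd_cont {δ : ℝ} (h : 0 < δ) (f : ℕ → 𝕜) : Continuous (opd δ f) := by
  have : opd δ f = fun x => scl δ⁻¹ (op f (scl δ x)) := funext fun x => opd_eq h f x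
  rw [this]
  exact (scl_cont _).comp ((op_cont f).comp (scl_cont _))

end scl

variable {δ : ℝ}

lemma opd_mono (hδ : 0 < δ) {t : ℝ} (ht : 0 ≤ t) {x y : I → ℝ} (h : x ≤ y) : opd δ (symT t) x ≤ opd δ (symT t) y := by
  rintro ⟨K, i⟩
  rcases i with j | q
  · rw [opd_inl, opd_inl, off_real, off_real]
    refine add_le_add (mul_le_mul_of_nonneg_left (h _) (symT_pos t _).le) (mul_le_mul_of_nonneg_left (sum_le_sum fun k hk => ?_) hδ.le)
    rw [mem_Ico] at hk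
    refine mul_le_mul_of_nonneg_left (mul_le_mul_of_nonneg_left (h _) ?_) (wt_pos _).le
    linarith [symT_le ht (by omega : 2 * j ≤ 2 * k + 1)]
  · rw [opd_inr, opd_inr]
    exact mul_le_mul_of_nonneg_left (h _) (symT_pos t _).le

lemma opd_zero {𝕜 : Type} [RCLike 𝕜] (hδ : 0 < δ) (f : ℕ → 𝕜) : opd δ f (0 : I → 𝕜) = 0 := by
  have := opd_smul hδ f (0 : 𝕜) 0
  simpa using this

lemma opd_nonneg (hδ : 0 < δ) {t : ℝ} (ht : 0 ≤ t) {x : I → ℝ} (h : 0 ≤ x) : 0 ≤ opd δ (symT t) x := by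
  rw [← opd_zero hδ (symT t)]
  exact opd_mono hδ ht h

lemma absf_opd_le (hδ : 0 < δ) {t : ℝ} (ht : 0 ≤ t) (x : I → ℂ) :
    absf (opd δ (fun n => (symT t n : ℂ)) x) ≤ opd δ (symT t) (absf x) := by
  rintro ⟨K, i⟩
  rcases i with j | q
  · rw [opd_inl, off_real]
    simp only [absf, opd_inl]
    refine (norm_add_le _ _).trans (add_le_add ?_ ?_)
    · rw [norm_mul, Complex.norm_real, Real.norm_of_nonneg (symT_pos t _).le]
    · rw [norm_mul, RCLike.norm_ofReal, abs_of_pos hδ]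
      refine mul_le_mul_of_nonneg_left ?_ hδ.le
      unfold off
      refine (norm_sum_le _ _).trans (sum_le_sum fun k hk => ?_)
      rw [mem_Ico] at hk
      have h1 : 0 ≤ symT t (2 * k + 1) - symT t (2 * j) := by linarith [symT_le ht (by omega : 2 * j ≤ 2 * k + 1)]
      rw [norm_mul, norm_mul, RCLike.norm_ofReal, abs_of_pos (wt_pos _), ← Complex.ofReal_sub, Complex.norm_real, Real.norm_of_nonneg h1]
  · rw [opd_inr]
    simp only [absf, opd_inr]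
    rw [norm_mul, Complex.norm_real, Real.norm_of_nonneg (symT_pos t _).le]

/-- the diagonal part -/
def dg (f : ℕ → ℝ) (x : I → ℝ) : I → ℝ
  | (K, Sum.inl j) => f (2 * j) * x (K, Sum.inl j)
  | (K, Sum.inr q) => f (2 * q.1 + 1) * x (K, Sum.inr q)

lemma opd_split (δ : ℝ) (f : ℕ → ℝ) (x : I → ℝ) :
    opd δ f x = fun i => (1 - δ) * dg f x i + δ * op f x i := by
  funext i
  obtain ⟨K, i⟩ := i
  rcases i with j | q
  · rw [opd_inl, op_inl]
    simp only [dg, RCLike.ofReal_real_eq_id, id_eq]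
    ring
  · rw [opd_inr, op_inr]
    simp only [dg]
    ring

lemma PN_dg {p : ℝ} (hp : 0 < p) {t : ℝ} (ht : 0 ≤ t) (N : ℕ) (x : I → ℝ) : PN p N (dg (symT t) x) ≤ PN p N x := by
  refine lpn_mono hp _ ?_
  rintro ⟨K, i⟩ -
  have h1 : ∀ n (a : ℝ), |symT t n * a| ≤ |a| := fun n a => by
    rw [abs_mul, abs_of_pos (symT_pos t n)]
    exact mul_le_of_le_one_left (abs_nonneg _) (symT_le_one ht n)
  rcases i with j | q
  · exact h1 _ _
  · exact h1 _ _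

lemma PN_opd {p : ℝ} (hp1 : 1 < p) (hδ : 0 < δ) (hδ1 : δ ≤ 1) {t : ℝ} (ht : 0 ≤ t) (N : ℕ) (x : I → ℝ) :
    PN p N (opd δ (symT t) x) ≤ (1 + δ * hc p) * PN p N x := by
  have hp0 : 0 < p := by linarith
  rw [opd_split]
  have h1 : PN p N (fun i => (1 - δ) * dg (symT t) x i + δ * op (symT t) x i) ≤
      (1 - δ) * PN p N (dg (symT t) x) + δ * PN p N (op (symT t) x) := by
    unfold PN
    refine (lpn_add hp1.le _ _ _).trans (le_of_eq ?_)
    rw [lpn_smul hp0 _ (by linarith), lpn_smul hp0 _ hδ.le]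
  have h2 := PN_dg hp0 ht N x
  have h3 := PN_opT hp1 ht N x
  have h4 : 0 ≤ 1 - δ := by linarith
  calc _ ≤ _ := h1
    _ ≤ (1 - δ) * PN p N x + δ * ((1 + 1 * hc p) * PN p N x) := by gcongr
    _ = _ := by ring

/-- seminorms -/
def DD (δ : ℝ) (hδ : 0 < δ) : KData I (ℝ≥0 × ℕ) where
  p k x := PN 2 k.2 (opd δ (symT k.1) x)
  nonneg k x := lpn_nonneg _ _
  add_le k x y := by
    rw [opd_add hδ]
    exact lpn_add (by norm_num) _ _ _
  smul k c x hc := by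
    rw [opd_smul hδ]
    exact lpn_smul (by norm_num) _ hc _
  mono k x y h0 h := by
    refine lpn_mono (by norm_num) _ fun i _ => ?_
    have h1 := opd_nonneg hδ k.1.coe_nonneg h0
    have h2 := opd_mono hδ k.1.coe_nonneg h
    rw [abs_of_nonneg (h1 i), abs_of_nonneg ((h1.trans h2) i)]
    exact h2 i
  cont k := (lpn_cont (by norm_num) _).comp (opd_cont hδ _)
  ctrl i := by
    obtain ⟨N, hN⟩ := mem_box_of (i := i)
    refine ⟨(0, N), fun x hx => ?_⟩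
    have h1 : opd δ (symT ((0 : ℝ≥0) : ℝ)) x = x := by
      have : symT ((0 : ℝ≥0) : ℝ) = 1 := by
        funext n
        simp [symT_zero]
      rw [this, opd_one hδ]
    change x i ≤ PN 2 N (opd δ (symT ((0 : ℝ≥0) : ℝ)) x)
    rw [h1]
    exact (le_abs_self _).trans (le_lpn (by norm_num) hN x)

variable (hδ : 0 < δ) (hδ1 : δ ≤ 1)

lemma DD_p (t : ℝ≥0) (N : ℕ) (x : I → ℝ) : (DD δ hδ).p (t, N) x = PN 2 N (opd δ (symT t) x) := rfl

lemma DD_zero (N : ℕ) (x : I → ℝ) : (DD δ hδ).p (0, N) x = PN 2 N x := by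
  rw [DD_p]
  have : symT ((0 : ℝ≥0) : ℝ) = 1 := by
    funext n
    simp [symT_zero]
  rw [this, opd_one hδ]

/-- the real Banach lattice -/
abbrev ER : Type := KSpace (DD δ hδ) ℝ
/-- the complex Banach lattice -/
abbrev XC : Type := KSpace (DD δ hδ) ℂ

include hδ1 in
lemma DD_bound {𝕜 : Type} [RCLike 𝕜] (k : ℝ≥0 × ℕ) (x : I → 𝕜) {a : ℝ} (h : ∀ N, PN 2 N (absf x) ≤ a) :
    (DD δ hδ).p k (absf x) ≤ (1 + δ * hc 2) * a := by
  obtain ⟨t, N⟩ := k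
  rw [DD_p]
  refine (PN_opd (by norm_num) hδ hδ1 t.coe_nonneg N (absf x)).trans ?_
  have := hc_nonneg (p := 2) (by norm_num)
  gcongr
  exact h N

include hδ in
lemma PN_scl (hδ1 : δ ≤ 1) (N : ℕ) (x : I → ℂ) : PN 2 N (absf (scl δ x)) ≤ PN 2 N (absf x) := by
  refine lpn_mono (by norm_num) _ ?_
  rintro ⟨K, i⟩ -
  rcases i with j | q
  · exact le_rfl
  · simp only [absf, scl_inr, norm_mul, RCLike.norm_ofReal, abs_of_pos hδ]
    rw [abs_of_nonneg (by positivity), abs_of_nonneg (norm_nonneg _)]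
    exact mul_le_of_le_one_left (norm_nonneg _) hδ1

include hδ in
lemma PN_scl' (hδ1 : δ ≤ 1) (N : ℕ) (x : I → ℂ) : PN 2 N (absf x) ≤ δ⁻¹ * PN 2 N (absf (scl δ x)) := by
  rw [PN, PN, ← lpn_smul (by norm_num) _ (inv_nonneg.2 hδ.le)]
  refine lpn_mono (by norm_num) _ ?_
  rintro ⟨K, i⟩ -
  rcases i with j | q
  · simp only [absf, scl_inl]
    rw [abs_norm, abs_of_nonneg (by positivity)]
    exact le_mul_of_one_le_left (norm_nonneg _) ((one_le_inv₀ hδ).2 hδ1)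
  · simp only [absf, scl_inr, norm_mul, RCLike.norm_ofReal, abs_of_pos hδ]
    rw [abs_norm, abs_of_nonneg (by positivity), inv_mul_cancel_left₀ hδ.ne']

/-- the renormed space is a model -/
def mK : Model 2 (XC hδ) where
  co := { toFun := fun x => scl δ x.co, map_add' := fun x y => scl_add _ _ _, map_smul' := fun c x => scl_smul _ _ _ }
  M := (1 + δ * hc 2) * δ⁻¹
  M_nonneg := by
    have := hc_nonneg (p := 2) (by norm_num)
    positivity
  lower := fun x N => by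
    have := p_le_norm x ((0 : ℝ≥0), N)
    rw [DD_zero] at this
    exact (PN_scl hδ hδ1 N x.co).trans this
  upper := fun x a h => by
    have ha : 0 ≤ a := (lpn_nonneg _ _).trans (h 0)
    have h2 := hc_nonneg (p := 2) (by norm_num)
    refine norm_le_of (by positivity) fun k => ?_
    rw [mul_assoc]
    refine DD_bound hδ hδ1 k _ fun N => (PN_scl' hδ hδ1 N x.co).trans ?_
    exact mul_le_mul_of_nonneg_left (h N) (inv_nonneg.2 hδ.le)
  surj := fun y a h => ⟨KSpace.mk (scl δ⁻¹ y) ⟨(1 + δ * hc 2) * (δ⁻¹ * a), by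
    rintro _ ⟨k, rfl⟩
    refine DD_bound hδ hδ1 k _ fun N => (PN_scl' hδ hδ1 N _).trans ?_
    rw [scl_inv' hδ]
    exact mul_le_mul_of_nonneg_left (h N) (inv_nonneg.2 hδ.le)⟩, by
    change scl δ (scl δ⁻¹ y) = y
    rw [scl_inv' hδ]⟩

lemma mK_co (x : XC hδ) : (mK hδ hδ1).co x = scl δ x.co := rfl

lemma T_co (t : ℝ≥0) (x : XC hδ) :
    ((mK hδ hδ1).T (by norm_num) t x).co = opd δ (fun n => (symT t n : ℂ)) x.co := by
  have h := (mK hδ hδ1).co_T (by norm_num) t x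
  rw [mK_co, mK_co] at h
  rw [opd_eq hδ, ← h, scl_inv hδ]

/-- the semigroup consists of contractions -/
theorem T_contr (t : ℝ≥0) : ‖(mK hδ hδ1).T (by norm_num) t‖ ≤ 1 := by
  refine ContinuousLinearMap.opNorm_le_bound _ zero_le_one fun x => ?_
  rw [one_mul]
  refine norm_le_of (norm_nonneg _) fun k => ?_
  obtain ⟨s, N⟩ := k
  rw [T_co]
  refine ((DD δ hδ).mono (s, N) _ _ (absf_nonneg _) (absf_opd_le hδ t.coe_nonneg x.co)).trans ?_
  rw [DD_p, ← opd_mul hδ, ← symT_mul]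
  exact p_le_norm x (s + t, N)

/-- the semigroup is positive -/
theorem T_pos (t : ℝ≥0) (a : ER hδ) (ha : 0 ≤ a) :
    ∃ b : ER hδ, 0 ≤ b ∧ (mK hδ hδ1).T (by norm_num) t (incl a) = incl b := by
  have hb : BddAbove (Set.range fun k => (DD δ hδ).p k (absf (opd δ (symT t) a.co))) := by
    obtain ⟨B, hB⟩ := a.bdd
    refine ⟨B, ?_⟩
    rintro _ ⟨⟨s, N⟩, rfl⟩
    have h1 : absf (opd δ (symT t) a.co) = opd δ (symT t) (absf a.co) := by
      have h2 : absf a.co = a.co := by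
        funext i
        exact Real.norm_of_nonneg (ha i)
      rw [h2]
      funext i
      exact Real.norm_of_nonneg (opd_nonneg hδ t.coe_nonneg ha i)
    simp only
    rw [h1, DD_p, ← opd_mul hδ, ← symT_mul]
    exact hB ⟨(s + t, N), rfl⟩
  refine ⟨KSpace.mk (opd δ (symT t) a.co) hb, ?_, ?_⟩
  · rw [kle_iff]
    exact opd_nonneg hδ t.coe_nonneg ha
  · ext i
    rw [T_co, incl_co, co_mk]
    obtain ⟨K, i⟩ := i
    rcases i with j | q
    · rw [opd_inl, opd_inl, off_real]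
      unfold off
      push_cast
      simp only [incl_co]
      rfl
    · rw [opd_inr, opd_inr, incl_co]
      push_cast
      rfl

/-- the renormed space is isomorphic to `ℓ_2(I)` -/
def isoH : XC hδ ≃L[ℂ] LP 2 :=
  haveI : Fact ((1 : ℝ≥0∞) ≤ 2) := ⟨by norm_num⟩
  Model.equiv (p := 2) (by norm_num) (mK hδ hδ1) (by
    have h : (2 : ℝ≥0∞).toReal = 2 := by norm_num
    have m := lpModel 2 (by rw [h]; norm_num)
    rw [h] at m
    exact m)

/-! ### comparison with the norm of `ℓ_2` -/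

section compare

variable {𝕜 : Type} [RCLike 𝕜]

lemma PN_le_norm (x : KSpace (DD δ hδ) 𝕜) (N : ℕ) : PN 2 N (absf x.co) ≤ ‖x‖ := by
  have := p_le_norm x ((0 : ℝ≥0), N)
  rwa [DD_zero] at this

include hδ1 in
lemma norm_le_PN (x : KSpace (DD δ hδ) 𝕜) {a : ℝ} (h : ∀ N, PN 2 N (absf x.co) ≤ a) : ‖x‖ ≤ (1 + δ * hc 2) * a := by
  have ha : 0 ≤ a := (lpn_nonneg _ _).trans (h 0)
  have h2 := hc_nonneg (p := 2) (by norm_num)
  exact norm_le_of (by positivity) fun k => DD_bound hδ hδ1 k _ h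

/-- `ℓ_2(I)` over the reals or the complex numbers -/
abbrev L2 (𝕜 : Type) [RCLike 𝕜] : Type := lp (fun _ : I => 𝕜) 2

lemma mem_of_PN {y : I → 𝕜} {a : ℝ} (h : ∀ N, PN 2 N (absf y) ≤ a) : Memℓp y 2 := by
  have ha : 0 ≤ a := (lpn_nonneg _ _).trans (h 0)
  have h2 : ((2 : ℝ≥0∞)).toReal = 2 := by norm_num
  refine memℓp_gen' (C := a ^ (2 : ℝ)) fun s => ?_
  obtain ⟨N, hN⟩ := exists_box s
  have h1 := h N
  unfold PN at h1
  rw [lpn_le_iff (by norm_num) _ _ ha] at h1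
  refine le_trans ?_ h1
  refine (sum_le_sum_of_subset_of_nonneg hN fun _ _ _ => by positivity).trans (le_of_eq ?_)
  refine sum_congr rfl fun i _ => ?_
  rw [h2]
  simp [absf]

lemma PN_le_L2 (y : L2 𝕜) (N : ℕ) : PN 2 N (absf (y : I → 𝕜)) ≤ ‖y‖ := by
  have h2 : ((2 : ℝ≥0∞)).toReal = 2 := by norm_num
  unfold PN
  rw [lpn_le_iff (by norm_num) _ _ (norm_nonneg _)]
  have := lp.sum_rpow_le_norm_rpow (p := 2) (by rw [h2]; norm_num) y (box N)
  rw [h2] at this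
  refine le_trans (le_of_eq ?_) this
  refine sum_congr rfl fun i _ => ?_
  simp [absf]

lemma L2_le (y : L2 𝕜) {a : ℝ} (h : ∀ N, PN 2 N (absf (y : I → 𝕜)) ≤ a) : ‖y‖ ≤ a := by
  have ha : 0 ≤ a := (lpn_nonneg _ _).trans (h 0)
  have h2 : ((2 : ℝ≥0∞)).toReal = 2 := by norm_num
  refine lp.norm_le_of_forall_sum_le (p := 2) (by rw [h2]; norm_num) ha fun s => ?_
  obtain ⟨N, hN⟩ := exists_box s
  have h1 := h N
  unfold PN at h1
  rw [lpn_le_iff (by norm_num) _ _ ha] at h1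
  rw [h2]
  refine le_trans ?_ h1
  refine (sum_le_sum_of_subset_of_nonneg hN fun _ _ _ => by positivity).trans (le_of_eq ?_)
  refine sum_congr rfl fun i _ => ?_
  simp [absf]

/-- the coordinates as an element of `ℓ_2(I)` -/
def toL2 : KSpace (DD δ hδ) 𝕜 ≃ₗ[𝕜] L2 𝕜 where
  toFun x := ⟨x.co, mem_of_PN (PN_le_norm hδ x)⟩
  map_add' x y := rfl
  map_smul' c x := rfl
  invFun y := KSpace.mk (y : I → 𝕜) ⟨(1 + δ * hc 2) * ‖y‖, by
    rintro _ ⟨k, rfl⟩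
    exact DD_bound hδ hδ1 k _ (PN_le_L2 y)⟩
  left_inv x := rfl
  right_inv y := rfl

lemma toL2_apply (x : KSpace (DD δ hδ) 𝕜) (i : I) : (toL2 hδ hδ1 x : I → 𝕜) i = x.co i := rfl

lemma toL2_le (x : KSpace (DD δ hδ) 𝕜) : ‖toL2 hδ hδ1 x‖ ≤ ‖x‖ :=
  L2_le _ fun N => PN_le_norm hδ x N

lemma le_toL2 (x : KSpace (DD δ hδ) 𝕜) : ‖x‖ ≤ (1 + δ * hc 2) * ‖toL2 hδ hδ1 x‖ :=
  norm_le_PN hδ hδ1 x fun N => PN_le_L2 (toL2 hδ hδ1 x) N

lemma sqrt_eq (y : L2 𝕜) : Summable (fun i => ‖(y : I → 𝕜) i‖ ^ 2) ∧ Real.sqrt (∑' i, ‖(y : I → 𝕜) i‖ ^ 2) = ‖y‖ := by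
  have h2 : ((2 : ℝ≥0∞)).toReal = 2 := by norm_num
  have hp : 0 < ((2 : ℝ≥0∞)).toReal := by rw [h2]; norm_num
  have h1 := lp.hasSum_norm hp y
  rw [h2] at h1
  simp only [Real.rpow_two] at h1
  exact ⟨h1.summable, by rw [h1.tsum_eq, Real.sqrt_sq (norm_nonneg _)]⟩

include hδ hδ1 in
lemma co_surj {y : I → 𝕜} (hy : Summable fun i => ‖y i‖ ^ 2) : ∃ x : KSpace (DD δ hδ) 𝕜, x.co = y := by
  have h2 : ((2 : ℝ≥0∞)).toReal = 2 := by norm_num
  have hm : Memℓp y 2 := by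
    refine memℓp_gen ?_
    rw [h2]
    simpa only [Real.rpow_two] using hy
  exact ⟨(toL2 hδ hδ1).symm ⟨y, hm⟩, rfl⟩

lemma co_summable (x : KSpace (DD δ hδ) 𝕜) (hδ1 : δ ≤ 1) : Summable fun i => ‖x.co i‖ ^ 2 :=
  (sqrt_eq (toL2 hδ hδ1 x)).1

lemma sqrt_le (x : KSpace (DD δ hδ) 𝕜) (hδ1 : δ ≤ 1) : Real.sqrt (∑' i, ‖x.co i‖ ^ 2) ≤ ‖x‖ :=
  (sqrt_eq (toL2 hδ hδ1 x)).2.le.trans (toL2_le hδ hδ1 x)

lemma le_sqrt (x : KSpace (DD δ hδ) 𝕜) (hδ1 : δ ≤ 1) : ‖x‖ ≤ (1 + δ * hc 2) * Real.sqrt (∑' i, ‖x.co i‖ ^ 2) :=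
  (le_toL2 hδ hδ1 x).trans (le_of_eq (by rw [← (sqrt_eq (toL2 hδ hδ1 x)).2]; rfl))

/-- the coordinates as a linear map -/
def coL : KSpace (DD δ hδ) 𝕜 →ₗ[𝕜] (I → 𝕜) where
  toFun x := x.co
  map_add' _ _ := rfl
  map_smul' _ _ := rfl

end compare

end

end Pool.Agent.Y754.UL
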