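import Pool.Agent.Y754.UL.K
import Pool.Agent.H716R3.Rad2
import Pool.Agent.H716R3.LpC

/-! Models with scaled coordinates: positive semigroups on `ℓ_p` with norms close to one. -/

open Finset Pool.Agent.Helper604.UMD Filter Topology Pool.Agent.H716R3
open scoped NNReal ENNReal

namespace Pool.Agent.Y754.UL

noncomputable section

variable {δ : ℝ} {p : ℝ}

lemma PNp_scl (hp : 0 < p) (hδ : 0 < δ) (hδ1 : δ ≤ 1) (N : ℕ) (x : I → ℂ) : PN p N (absf (scl δ x)) ≤ PN p N (absf x) := by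
  refine lpn_mono hp _ ?_
  rintro ⟨K, i⟩ -
  rcases i with j | q
  · exact le_rfl
  · simp only [absf, scl_inr, norm_mul, RCLike.norm_ofReal, abs_of_pos hδ]
    rw [abs_of_nonneg (by positivity), abs_of_nonneg (norm_nonneg _)]
    exact mul_le_of_le_one_left (norm_nonneg _) hδ1

lemma PNp_scl' (hp : 0 < p) (hδ : 0 < δ) (hδ1 : δ ≤ 1) (N : ℕ) (x : I → ℂ) :
    PN p N (absf x) ≤ δ⁻¹ * PN p N (absf (scl δ x)) := by
  rw [PN, PN, ← lpn_smul hp _ (inv_nonneg.2 hδ.le)]
  refine lpn_mono hp _ ?_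
  rintro ⟨K, i⟩ -
  rcases i with j | q
  · simp only [absf, scl_inl]
    rw [abs_norm, abs_of_nonneg (by positivity)]
    exact le_mul_of_one_le_left (norm_nonneg _) ((one_le_inv₀ hδ).2 hδ1)
  · simp only [absf, scl_inr, norm_mul, RCLike.norm_ofReal, abs_of_pos hδ]
    rw [abs_norm, abs_of_nonneg (by positivity), inv_mul_cancel_left₀ hδ.ne']

variable {X : Type} [NormedAddCommGroup X] [NormedSpace ℂ X]

/-- the model with scaled coordinates -/
def scaled (m : Model p X) (hp : 0 < p) (hδ : 0 < δ) (hδ1 : δ ≤ 1) : Model p X where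
  co := { toFun := fun x => scl δ (m.co x)
          map_add' := fun x y => by rw [map_add, scl_add]
          map_smul' := fun c x => by rw [map_smul, scl_smul, RingHom.id_apply] }
  M := m.M * δ⁻¹
  M_nonneg := mul_nonneg m.M_nonneg (inv_nonneg.2 hδ.le)
  lower := fun x N => (PNp_scl hp hδ hδ1 N (m.co x)).trans (m.lower x N)
  upper := fun x a h => by
    rw [mul_assoc]
    refine m.upper x _ fun N => (PNp_scl' hp hδ hδ1 N (m.co x)).trans ?_
    exact mul_le_mul_of_nonneg_left (h N) (inv_nonneg.2 hδ.le)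
  surj := fun y a h => by
    obtain ⟨x, hx⟩ := m.surj (scl δ⁻¹ y) (δ⁻¹ * a) fun N => by
      refine (PNp_scl' hp hδ hδ1 N _).trans ?_
      rw [scl_inv' hδ]
      exact mul_le_mul_of_nonneg_left (h N) (inv_nonneg.2 hδ.le)
    exact ⟨x, by
      change scl δ (m.co x) = y
      rw [hx, scl_inv' hδ]⟩

lemma scaled_co (m : Model p X) (hp : 0 < p) (hδ : 0 < δ) (hδ1 : δ ≤ 1) (x : X) :
    (scaled m hp hδ hδ1).co x = scl δ (m.co x) := rfl

lemma scaled_T (m : Model p X) (hp1 : 1 < p) (hp : 0 < p) (hδ : 0 < δ) (hδ1 : δ ≤ 1) (t : ℝ≥0) (x : X) :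
    m.co ((scaled m hp hδ hδ1).T hp1 t x) = opd δ (fun n => (symT t n : ℂ)) (m.co x) := by
  have h := (scaled m hp hδ hδ1).co_T hp1 t x
  rw [scaled_co, scaled_co] at h
  rw [opd_eq hδ, ← h, scl_inv hδ]

/-- the norms of the semigroup -/
theorem scaled_norm (m : Model p X) (hM : m.M = 1) (hp1 : 1 < p) (hp : 0 < p) (hδ : 0 < δ) (hδ1 : δ ≤ 1) (t : ℝ≥0) :
    ‖(scaled m hp hδ hδ1).T hp1 t‖ ≤ 1 + δ * hc p := by
  have hc0 := hc_nonneg hp1
  refine ContinuousLinearMap.opNorm_le_bound _ (by positivity) fun x => ?_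
  have h1 := m.upper ((scaled m hp hδ hδ1).T hp1 t x) ((1 + δ * hc p) * ‖x‖) fun N => by
    rw [scaled_T]
    calc PN p N (absf (opd δ (fun n => (symT t n : ℂ)) (m.co x)))
        ≤ PN p N (opd δ (symT t) (absf (m.co x))) := by
          refine lpn_mono hp _ fun i _ => ?_
          have h2 := absf_opd_le hδ t.coe_nonneg (m.co x) i
          rw [abs_of_nonneg (absf_nonneg _ i), abs_of_nonneg ((absf_nonneg _ i).trans h2)]
          exact h2
      _ ≤ (1 + δ * hc p) * PN p N (absf (m.co x)) := PN_opd hp1 hδ hδ1 t.coe_nonneg N _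
      _ ≤ (1 + δ * hc p) * ‖x‖ := by
          gcongr
          exact m.lower x N
  rwa [hM, one_mul] at h1

lemma opd_real (hδ : 0 < δ) {t : ℝ} (y : I → ℝ) :
    opd δ (fun n => (symT t n : ℂ)) (fun i => (y i : ℂ)) = fun i => ((opd δ (symT t) y i : ℝ) : ℂ) := by
  funext i
  obtain ⟨K, i⟩ := i
  rcases i with j | q
  · rw [opd_inl, opd_inl, off_real]
    unfold off
    push_cast
    rfl
  · rw [opd_inr, opd_inr]
    push_cast
    rfl

lemma exists_delta {ε : ℝ} (hε : 0 < ε) (hp1 : 1 < p) : ∃ δ : ℝ, 0 < δ ∧ δ ≤ 1 ∧ δ * hc p ≤ ε := by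
  have hc0 := hc_nonneg hp1
  refine ⟨min 1 (ε / (hc p + 1)), by positivity, min_le_left _ _, ?_⟩
  calc min 1 (ε / (hc p + 1)) * hc p ≤ ε / (hc p + 1) * hc p := by
        gcongr
        exact min_le_right _ _
    _ ≤ ε := by
        rw [div_mul_eq_mul_div, div_le_iff₀ (by positivity)]
        nlinarith

end

end Pool.Agent.Y754.UL
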